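import Pool.Agent.W901.AT.DefsP
import Pool.Agent.H623R2.PS.Defs

/-!
# Nondeterministic prediction of the answers to parallel queries

Polynomial time is Mathlib's `Turing.TM2ComputableInPolyTime` (through `Pool.Agent.NPC.PolyTime`);
`Beats` is the notion of `Pool.Agent.W901.AT.DefsP`.
-/

set_option autoImplicit false

namespace Pool.Agent.W920.LN

open Pool.Agent.NPC Pool.Agent.W901.AT

/-- `h` is an output, on the input `z`, of the nondeterministic algorithm which guesses a string `w`
of length at most `p |z|` and then outputs `v` if `g (z, w) = some v`, and nothing if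
`g (z, w) = none`. -/
def Outputs (g : List Bool → Option (List (Option Bool))) (p : Polynomial ℕ) (z : List Bool)
    (h : List (Option Bool)) : Prop :=
  ∃ w : List Bool, w.length ≤ p.eval z.length ∧ g (pairBits z w) = some h

/-- `A` is nondeterministically `(δ, ε)`-predictable: there is a total nondeterministic
polynomial-time algorithm (every input has at least one output; there may be many) which, given a
nonempty list of `m` questions about membership in `A`, each of length at most `m ^ ε`, and
`b (⌊log₂ n⌋ + 1)` bits of information about the list from any source (`n` is the length of the code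
of the list), has only outputs which beat random guessing by `m ^ δ` standard deviations. -/
def NPredictable (δ ε : ℝ) (A : Set (List Bool)) : Prop :=
  ∃ (g : List Bool → Option (List (Option Bool))) (p : Polynomial ℕ)
    (u : List (List Bool) → List Bool) (b : ℕ),
    PolyTime (fun z => bits (g z)) ∧ (∀ z, ∃ h, Outputs g p z h) ∧
    (∀ qs, (u qs).length = b * (Nat.log 2 (bits qs).length + 1)) ∧
      ∀ qs : List (List Bool), qs ≠ [] → (∀ y ∈ qs, (y.length : ℝ) ≤ (qs.length : ℝ) ^ ε) →
        ∀ h, Outputs g p (pairBits (bits qs) (u qs)) h → Beats δ A qs h

/-- `A` is nondeterministically fully `δ`-predictable: the same with predictions for all questions,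
and for all nonempty lists of questions of any length. -/
def NFullyPredictable (δ : ℝ) (A : Set (List Bool)) : Prop :=
  ∃ (g : List Bool → Option (List (Option Bool))) (p : Polynomial ℕ)
    (u : List (List Bool) → List Bool) (b : ℕ),
    PolyTime (fun z => bits (g z)) ∧ (∀ z, ∃ h, Outputs g p z h) ∧
    (∀ qs, (u qs).length = b * (Nat.log 2 (bits qs).length + 1)) ∧
      ∀ qs : List (List Bool), qs ≠ [] → ∀ h, Outputs g p (pairBits (bits qs) (u qs)) h →
        Beats δ A qs h ∧ ∀ a ∈ h, a ≠ none

end Pool.Agent.W920.LN
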