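import Pool.Agent.W920.LS.Cand
import Pool.Agent.W920.LN.Defs

/-!
# Candidate lists with the help of a table of guessed witnesses
-/

set_option autoImplicit false

namespace Pool.Agent.W920.LN

open Pool.Agent.NPC Pool.Agent.H579R2.Spt Pool.Agent.H251R5.PQ Pool.Agent.W901.AT
open Pool.Agent.W903.GP (Sp inPSPACE_of_sp)
open Pool.Agent.W920.LS

/-- tables of witnesses -/
abbrev Tb := List (List Bool × List Bool)

/-- looking up -/
def lk (tb : Tb) (z : List Bool) : List Bool :=
  ((tb.filter fun e => decide (e.1 = z)).head?.getD ([], [])).2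

/-- the output with the witness of the table -/
def go (g : List Bool → Option (List (Option Bool))) (p : Polynomial ℕ) (tb : Tb) (z : List Bool) :
    Option (List (Option Bool)) :=
  bif decide ((lk tb z).length ≤ p.eval z.length) then g (pairBits z (lk tb z)) else none

/-- all vectors for a session -/
def ET (g : List Bool → Option (List (Option Bool))) (p : Polynomial ℕ)
    (cs : List (List Bool) → List (List Bool)) (tb : Tb) (qs : List (List Bool)) :
    List (List (Option Bool)) :=
  (cs qs).map fun t => (go g p tb (pairBits (bits qs) t)).getD []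

theorem lk_poly {α : Type} [TEnc α] {tb : α → Tb} {z : α → List Bool} (ht : Poly tb)
    (hz : Poly z) : Poly (fun a => lk (tb a) (z a)) := by
  refine NPC.Poly.snd (NPC.Poly.head?_getD (NPC.Poly.filter
    (p := fun a (e : List Bool × List Bool) => decide (e.1 = z a)) ht ?_) ([], []))
  exact NPC.Poly.decide_eq (NPC.Poly.fst (NPC.Poly.snd NPC.Poly.id))
    (hz.comp (NPC.Poly.fst NPC.Poly.id))

theorem go_poly {g : List Bool → Option (List (Option Bool))} (hg : Poly g) (p : Polynomial ℕ)
    {α : Type} [TEnc α] {tb : α → Tb} {z : α → List Bool} (ht : Poly tb) (hz : Poly z) :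
    Poly (fun a => go g p (tb a) (z a)) := by
  have h1 := lk_poly ht hz
  exact NPC.Poly.cond (NPC.Poly.decide_le (NPC.Poly.length h1) ((UPoly.length hz).eval p).toPoly)
    (hg.comp (H622R2.poly_pairBits hz h1)) (NPC.Poly.const none)

theorem isSome_poly {α β : Type} [TEnc α] [TEnc β] {o : α → Option β} (ho : Poly o) :
    Poly (fun a => (o a).isSome) :=
  (NPC.Poly.optCases (g := fun _ => false) (h := fun _ _ => true) ho (NPC.Poly.const false)
    (NPC.Poly.const true)).congr fun a => by cases o a <;> rfl

theorem eT_poly {g : List Bool → Option (List (Option Bool))} (hg : Poly g) (p : Polynomial ℕ)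
    {cs : List (List Bool) → List (List Bool)} (hcs : Poly cs)
    {α : Type} [TEnc α] {tb : α → Tb} {qs : α → List (List Bool)} (ht : Poly tb) (hq : Poly qs) :
    Poly (fun a => ET g p cs (tb a) (qs a)) := by
  have e1 : Poly (fun q : α × List Bool => q.1) := NPC.Poly.fst NPC.Poly.id
  have e2 : Poly (fun q : α × List Bool => q.2) := NPC.Poly.snd NPC.Poly.id
  refine NPC.Poly.map (l := fun a => cs (qs a))
    (F := fun a t => (go g p (tb a) (pairBits (bits (qs a)) t)).getD []) (hcs.comp hq) ?_
  exact NPC.Poly.optGetD (go_poly hg p (ht.comp e1)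
    (H622R2.poly_pairBits (bits_poly.comp (hq.comp e1)) e2)) (NPC.Poly.const [])

/-- The polynomial-time nondeterministic predictor, for the search. -/
def NCor (A : Set (List Bool)) (D c : ℕ) (cs : List (List Bool) → List (List Bool))
    (g : List Bool → Option (List (Option Bool))) (p : Polynomial ℕ) : Prop :=
  Poly cs ∧ Poly g ∧ (∀ z, ∃ h, Outputs g p z h) ∧
    ∀ qs, qs ≠ [] → (∀ q ∈ qs, q.length ^ c ≤ qs.length) → ∃ t ∈ cs qs,
      ∀ h, Outputs g p (pairBits (bits qs) t) h → good D h (answers A qs) = true

theorem upoly_bound {n : List Bool → ℕ} (hn : UPoly n) :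
    ∃ q : Polynomial ℕ, ∀ x, n x ≤ q.eval x.length := by
  obtain ⟨q, hq⟩ := Poly.sz_le hn
  refine ⟨q.comp (Polynomial.C 4 * Polynomial.X + 1), fun x => ?_⟩
  have h1 := hq x
  have h2 := length_lt_sz (List.replicate (n x) ())
  rw [List.length_replicate] at h2
  have h3 := eval_mono q (sz_listBool_le x)
  rw [Polynomial.eval_comp]
  simp only [Polynomial.eval_add, Polynomial.eval_mul, Polynomial.eval_C, Polynomial.eval_X,
    Polynomial.eval_one]
  omega

theorem allc_length {X : Type} (E : List (List Bool) → List (List (Option Bool)))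
    (qf : X × (ℕ × (ℕ × (ℕ × (ℕ × ℕ)))) → List Bool) (D k p P n : ℕ) (hP : 1 ≤ P) (x : X) :
    (allc E qf D k p P n x).length ≤ (n + 1) * P := by
  unfold allc
  rw [List.length_flatMap]
  refine (List.sum_le_card_nsmul _ P ?_).trans ?_
  · intro y hy
    obtain ⟨j, _, rfl⟩ := List.mem_map.1 hy
    exact (nextl_inv E qf D k p P x hP _).2.1
  · rw [List.length_map, List.length_range, smul_eq_mul]

/-- the table part of a session -/
def tbOf (qs : List (List Bool)) : Tb := (unbits Tb (unpair (qs.head?.getD [])).1).getD []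

/-- the vectors for a session with a table -/
def EP (g : List Bool → Option (List (Option Bool))) (p : Polynomial ℕ)
    (cs : List (List Bool) → List (List Bool)) (qs : List (List Bool)) :
    List (List (Option Bool)) :=
  ET g p cs (tbOf qs) (qs.map fun y => (unpair y).2)

theorem eP_poly {g : List Bool → Option (List (Option Bool))} (hg : Poly g) (p : Polynomial ℕ)
    {cs : List (List Bool) → List (List Bool)} (hcs : Poly cs) : Poly (EP g p cs) := by
  refine eT_poly hg p hcs ?_ ?_
  · exact NPC.Poly.optGetD (poly_unbits.comp (NPC.Poly.fst (poly_unpair.comp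
      (NPC.Poly.head?_getD NPC.Poly.id [])))) (NPC.Poly.const [])
  · exact NPC.Poly.map (l := fun qs : List (List Bool) => qs) (F := fun _ y => (unpair y).2)
      NPC.Poly.id (NPC.Poly.snd (poly_unpair.comp (NPC.Poly.snd NPC.Poly.id)))

/-- the queries with a table -/
def qT (f : List Bool → List Bool)
    (q : ((Tb × List Bool) × List Unit) × (ℕ × (ℕ × (ℕ × (ℕ × ℕ))))) : List Bool :=
  pairBits (bits q.1.1.1) (f (bits ((q.1.1.2, q.1.2), q.2)))

theorem eP_sess (g : List Bool → Option (List (Option Bool))) (p0 : Polynomial ℕ)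
    (cs : List (List Bool) → List (List Bool)) (f : List Bool → List Bool) {p : ℕ} (hp : 1 ≤ p)
    (P : ℕ) (tb : Tb) (x : List Bool) (ks : List Unit) (j a : ℕ) :
    EP g p0 cs (sess (qT f) p P ((tb, x), ks) j a) =
      ET g p0 cs tb (sess (fun q => f (bits q)) p P (x, ks) j a) := by
  have h1 : tbOf (sess (qT f) p P ((tb, x), ks) j a) = tb := by
    obtain ⟨p, rfl⟩ : ∃ p', p = p' + 1 := ⟨p - 1, by omega⟩
    unfold tbOf sess
    rw [List.range_succ_eq_map, List.map_cons]
    simp only [List.head?_cons, Option.getD_some, qT, unpair_pairBits, unbits_bits]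
  have h2 : (sess (qT f) p P ((tb, x), ks) j a).map (fun y => (unpair y).2) =
      sess (fun q => f (bits q)) p P (x, ks) j a := by
    unfold sess
    rw [List.map_map]
    refine List.map_congr_left fun i _ => ?_
    simp only [Function.comp, qT, unpair_pairBits]
  unfold EP
  rw [h1, h2]

end Pool.Agent.W920.LN
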