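import Pool.Agent.W920.LN.Red
import Pool.Agent.W920.LS.Main

/-!
# Nondeterministic prediction and `NP = PSPACE`
-/

set_option autoImplicit false

namespace Pool.Agent.W920.LN

open Turing Pool.Agent.NPC Pool.Agent.H623R2.PS Pool.Agent.W920.LS
open Pool.Agent.H656R2.AK (arcKayles_hard arcKayles_mem)
open Pool.Agent.W903 Pool.Agent.W901.AT Pool.Agent.H579R2.Spt Pool.Agent.H251R5.PQ
open Pool.Agent.W903.GP (Sp)

theorem piso_of_ps {L : Set (List Bool)} (h : Pool.Agent.H623R2.PS.InPSPACE L) :
    PIso.InPSPACE L := by
  obtain ⟨f, M, p, hf, hM⟩ := h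
  refine ⟨M.tm, M.inputAlphabet, M.outputAlphabet, p, fun x => ⟨?_, ?_⟩⟩
  · obtain ⟨n, hn⟩ := M.outputsFun x
    exact ⟨n, f x, (hf x).symm, hn⟩
  · intro i c hc k
    have hreach : ∀ (i : ℕ) (c : M.tm.Cfg),
        (flip bind M.tm.step)^[i] (some (initList M.tm (x.map M.inputAlphabet.symm))) = some c →
        StateTransition.Reaches M.tm.step (initList M.tm (x.map M.inputAlphabet.invFun)) c := by
      intro i
      induction i with
      | zero =>
        intro c hc
        have h1 : initList M.tm (x.map M.inputAlphabet.symm) = c := Option.some.inj hc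
        rw [← h1]
        exact Relation.ReflTransGen.refl
      | succ i ih =>
        intro c hc
        rw [Function.iterate_succ_apply'] at hc
        cases h1 : (flip bind M.tm.step)^[i]
            (some (initList M.tm (x.map M.inputAlphabet.symm))) with
        | none =>
          rw [h1] at hc
          exact absurd (show (none : Option M.tm.Cfg) = some c from hc) (by simp)
        | some c' =>
          rw [h1] at hc
          exact Relation.ReflTransGen.tail (ih c' h1) hc
    refine le_trans ?_ (hM x c (hreach i c hc))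
    unfold space
    let _ := M.tm.kFin
    exact Finset.single_le_sum (f := fun k => (c.stk k).length) (fun _ _ => Nat.zero_le _)
      (Finset.mem_univ k)

theorem good_of_beats {δ : ℝ} {D : ℕ} (hD1 : 1 ≤ (D : ℝ) * (2 * δ))
    {A : Set (List Bool)} {qs : List (List Bool)} (hqs : qs ≠ []) {h : List (Option Bool)}
    (hb : Beats δ A qs h) : good D h (answers A qs) = true := by
  obtain ⟨h1, h0, h2⟩ := hb
  have hl : (answers A qs).length = qs.length := by simp [answers]
  unfold good
  rw [Bool.and_eq_true, Bool.and_eq_true, decide_eq_true_eq, decide_eq_true_eq,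
    decide_eq_true_eq, hl, ← excess_eq_cor]
  refine ⟨h1, h0, ?_⟩
  have hm : 1 ≤ qs.length := length_pos hqs
  have hm1 : (1 : ℝ) ≤ qs.length := by exact_mod_cast hm
  rw [made_eq_nans] at h2
  have h3 : ((qs.length : ℝ) ^ δ * Real.sqrt (nans h)) ^ (2 * D) ≤
      |(excess h (answers A qs) : ℝ)| ^ (2 * D) :=
    pow_le_pow_left₀ (by positivity) h2 _
  have h4 : (qs.length : ℝ) * (nans h : ℝ) ^ D ≤
      ((qs.length : ℝ) ^ δ * Real.sqrt (nans h)) ^ (2 * D) := by
    rw [mul_pow]
    have e1 : Real.sqrt (nans h) ^ (2 * D) = (nans h : ℝ) ^ D := by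
      rw [pow_mul, Real.sq_sqrt (by positivity)]
    rw [e1]
    refine mul_le_mul_of_nonneg_right ?_ (by positivity)
    rw [← Real.rpow_natCast, ← Real.rpow_mul (by positivity)]
    calc (qs.length : ℝ) = (qs.length : ℝ) ^ (1 : ℝ) := (Real.rpow_one _).symm
      _ ≤ _ := Real.rpow_le_rpow_of_exponent_le hm1 (by push_cast; linarith)
  have h5 : |(excess h (answers A qs) : ℝ)| ^ (2 * D) =
      (excess h (answers A qs) : ℝ) ^ (2 * D) := by
    rw [pow_mul, pow_mul, sq_abs]
  have h6 := h4.trans (h3.trans (le_of_eq h5))
  exact_mod_cast h6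

/-- A nondeterministic predictor is what the search needs. -/
theorem nCor_of_npredictable {δ ε : ℝ} (hδ : 0 < δ) (hε : 0 < ε) {A : Set (List Bool)}
    (h : NPredictable δ ε A) : ∃ (D c : ℕ) (cs : List (List Bool) → List (List Bool))
      (g : List Bool → Option (List (Option Bool))) (p : Polynomial ℕ), NCor A D c cs g p := by
  obtain ⟨g, p, u, b, hg, hT, hu, hX⟩ := h
  obtain ⟨D, hD⟩ := exists_nat_ge (1 / (2 * δ))
  have hD1 : 1 ≤ (D : ℝ) * (2 * δ) := by
    rwa [div_le_iff₀ (by linarith)] at hD
  obtain ⟨c, hc⟩ := exists_nat_ge (1 / ε)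
  have hc1 : 1 ≤ (c : ℝ) * ε := by
    rwa [div_le_iff₀ hε] at hc
  refine ⟨D, c, fun qs => enuStep^[b * (Nat.log 2 (bits qs).length + 1)] [[]], g, p,
    enu_poly_all b, poly_of_bits' hg, hT, fun qs hqs hlen => ?_⟩
  refine ⟨u qs, enu_mem _ _ (hu qs), fun h hh => good_of_beats hD1 hqs ?_⟩
  refine hX qs hqs (fun y hy => ?_) h hh
  have hm : 1 ≤ qs.length := length_pos hqs
  have hm1 : (1 : ℝ) ≤ qs.length := by exact_mod_cast hm
  have h3 : (y.length : ℝ) ^ c ≤ qs.length := by exact_mod_cast hlen y hy
  have h4 : (qs.length : ℝ) ≤ ((qs.length : ℝ) ^ ε) ^ c := by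
    rw [← Real.rpow_natCast, ← Real.rpow_mul (by positivity)]
    calc (qs.length : ℝ) = (qs.length : ℝ) ^ (1 : ℝ) := (Real.rpow_one _).symm
      _ ≤ _ := Real.rpow_le_rpow_of_exponent_le hm1 (by linarith)
  have hc0 : c ≠ 0 := by
    rintro rfl
    norm_num at hc1
  exact le_of_pow_le_pow_left₀ hc0 (by positivity) (h3.trans h4)

/-! ### From `PSPACE ⊆ NP` to predictors -/

/-- Applying a polynomial-space function to all members of a list. -/
theorem sp_map {α β γ : Type} [TEnc α] [TEnc β] [TEnc γ] {F : β → γ} (hF : Sp F)
    {l : α → List β} (hl : NPC.Poly l) (d : β) : Sp (fun a => (l a).map F) := by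
  obtain ⟨pF, hpF⟩ := hF.sz_le
  obtain ⟨pl, hpl⟩ := hl.sz_le
  have key : ∀ (a : α) (i : ℕ), i ≤ (l a).length →
      (fun s : List γ => s ++ [F ((l a).getD s.length d)])^[i] [] = ((l a).take i).map F := by
    intro a i
    induction i with
    | zero => intro _; rfl
    | succ i ih =>
      intro hi
      rw [Function.iterate_succ_apply', ih (by omega)]
      simp only [List.length_map, List.length_take]
      rw [min_eq_left (by omega), List.getD_eq_getElem _ _ (by omega),
        ← List.map_singleton, ← List.map_append, List.take_append_getElem]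
  have h1 : Sp (fun a => (fun s : List γ => s ++ [F ((l a).getD s.length d)])^[(l a).length] []) := by
    refine Sp.iter2 (F := fun a (s : List γ) => s ++ [F ((l a).getD s.length d)])
      (N := fun a => (l a).length) (x := fun _ => []) ?_ (Sp.of_poly (NPC.Poly.length hl))
      (Sp.const []) (pl * (pF.comp pl + 1) + 1) ?_
    · have e1 : NPC.Poly (fun p : α × List γ => (l p.1).getD p.2.length d) :=
        NPC.Poly.getD (hl.comp (NPC.Poly.fst NPC.Poly.id))
          (NPC.Poly.length (NPC.Poly.snd NPC.Poly.id)) (NPC.Poly.const d)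
      exact Sp.op2 (f := fun p : α × List γ => p.2)
        (f' := fun p : α × List γ => F ((l p.1).getD p.2.length d))
        (g := fun q : List γ × γ => q.1 ++ [q.2]) (Sp.snd Sp.id) (hF.comp (Sp.of_poly e1))
        (NPC.Poly.append (NPC.Poly.fst NPC.Poly.id)
          (NPC.Poly.cons (NPC.Poly.snd NPC.Poly.id) (NPC.Poly.const [])))
    · intro a i hi
      rw [key a i hi]
      refine (sz_le_length_mul _ (pF.eval (pl.eval (sz a))) ?_).trans ?_
      · intro y hy
        obtain ⟨x, hx, rfl⟩ := List.mem_map.1 hy
        have h2 := sz_le_of_mem (List.mem_of_mem_take hx)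
        exact (hpF x).trans (eval_mono pF (h2.le.trans (hpl a)))
      · rw [List.length_map, List.length_take]
        have h3 := length_lt_sz (l a)
        have h4 := hpl a
        have h5 : min i (l a).length * (pF.eval (pl.eval (sz a)) + 1) ≤
            pl.eval (sz a) * (pF.eval (pl.eval (sz a)) + 1) := Nat.mul_le_mul_right _ (by omega)
        simp only [Polynomial.eval_add, Polynomial.eval_mul, Polynomial.eval_comp,
          Polynomial.eval_one]
        omega
  refine h1.congr fun a => ?_
  rw [key a _ le_rfl, List.take_length]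

theorem pairBits_length' (x w : List Bool) : (pairBits x w).length = 2 * x.length + 1 + w.length := by
  unfold pairBits
  have : (x.flatMap fun b => [true, b]).length = 2 * x.length := by
    induction x with
    | nil => rfl
    | cons b x ih => simp [List.flatMap_cons, ih]; ring
  rw [List.length_append, this, List.length_cons]
  ring

open Classical in
theorem nfully_of_inNP {δ : ℝ} (hδ : δ ≤ 1 / 2) (hP : ∀ L : Set (List Bool),
    Pool.Agent.H623R2.PS.InPSPACE L → InNP L) {A : Set (List Bool)}
    (hA : Pool.Agent.H623R2.PS.InPSPACE A) : NFullyPredictable δ A := by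
  obtain ⟨F, hF, hFA⟩ := GP.sp_of_inPSPACE (piso_of_ps hA)
  set vec : List Bool → List Bool := fun z =>
    ((unbits (List (List Bool)) (unpair z).1).getD []).map F with hvec
  have hvecS : Sp vec := sp_map hF listOf_poly []
  obtain ⟨q, hq⟩ := hvecS.sz_le
  have hql : ∀ z, (vec z).length ≤ (q.comp (Polynomial.C 4 * Polynomial.X + 1)).eval z.length := by
    intro z
    have e1 := hq z
    have e2 := sz_listBool_ge (vec z)
    have e3 := eval_mono q (sz_listBool_le z)
    rw [Polynomial.eval_comp]
    simp only [Polynomial.eval_add, Polynomial.eval_mul, Polynomial.eval_C, Polynomial.eval_X,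
      Polynomial.eval_one]
    omega
  set q' : Polynomial ℕ := q.comp (Polynomial.C 4 * Polynomial.X + 1) with hq'
  obtain ⟨V, p, hV, hVL⟩ := hP _ (ps_of_piso (GP.inPSPACE_graph hvecS))
  have hVp : Poly V := PIso.poly_iff.2 hV
  set g : List Bool → Option (List (Option Bool)) := fun y =>
    bif decide (V (pairBits (pairBits (unpair y).1 (unpair (unpair y).2).1)
      (unpair (unpair y).2).2) = [true]) &&
      decide ((unpair (unpair y).2).2.length ≤
        p.eval (pairBits (unpair y).1 (unpair (unpair y).2).1).length) then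
      some ((unpair (unpair y).2).1.map some) else none with hg
  have hgp : Poly g := by
    have e1 : Poly (fun y : List Bool => (unpair y).1) := NPC.Poly.fst poly_unpair
    have e2 : Poly (fun y : List Bool => (unpair y).2) := NPC.Poly.snd poly_unpair
    have e3 : Poly (fun y : List Bool => (unpair (unpair y).2).1) :=
      NPC.Poly.fst (poly_unpair.comp e2)
    have e4 : Poly (fun y : List Bool => (unpair (unpair y).2).2) :=
      NPC.Poly.snd (poly_unpair.comp e2)
    have e5 := H622R2.poly_pairBits e1 e3
    refine NPC.Poly.cond (NPC.Poly.and (NPC.Poly.decide_eq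
      (hVp.comp (H622R2.poly_pairBits e5 e4)) (NPC.Poly.const [true]))
      (NPC.Poly.decide_le (NPC.Poly.length e4) ((UPoly.length e5).eval p).toPoly)) ?_
      (NPC.Poly.const none)
    exact NPC.Poly.some (NPC.Poly.map (F := fun _ b => some b) e3
      (NPC.Poly.some (NPC.Poly.snd NPC.Poly.id)))
  have hgpair : ∀ z v w, g (pairBits z (pairBits v w)) =
      bif decide (V (pairBits (pairBits z v) w) = [true]) &&
        decide (w.length ≤ p.eval (pairBits z v).length) then some (v.map some) else none := by
    intro z v w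
    rw [hg]
    simp only [unpair_pairBits]
  refine ⟨g, 2 * q' + 1 + p.comp (2 * Polynomial.X + 1 + q'), fun _ => [], 0, polyTime_bits hgp,
    ?_, fun qs => by simp, ?_⟩
  · intro z
    obtain ⟨w, hw1, hw2⟩ := (hVL (pairBits z (vec z))).1 ⟨z, rfl⟩
    refine ⟨(vec z).map some, pairBits (vec z) w, ?_, ?_⟩
    · rw [pairBits_length']
      rw [pairBits_length'] at hw1
      have h1 := hql z
      have h2 := eval_mono p (show 2 * z.length + 1 + (vec z).length ≤
        2 * z.length + 1 + q'.eval z.length by omega)
      simp only [Polynomial.eval_add, Polynomial.eval_mul, Polynomial.eval_comp,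
        Polynomial.eval_X, Polynomial.eval_one, Polynomial.eval_ofNat]
      omega
    · rw [hgpair, hw2, decide_eq_true rfl, decide_eq_true hw1]
      rfl
  · rintro qs hqs h ⟨w', _, hw'⟩
    set z := pairBits (bits qs) ([] : List Bool) with hz
    have hvz : vec z = answers A qs := by
      simp only [hvec, hz, unpair_pairBits, unbits_bits, Option.getD_some]
      unfold answers
      refine List.map_congr_left fun y _ => ?_
      by_cases hy : y ∈ A
      · rw [(hFA y).1 hy]; exact (decide_eq_true hy).symm
      · have h1 : ¬ F y = true := fun h => hy ((hFA y).2 h)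
        rw [Bool.not_eq_true] at h1
        rw [h1]; exact (decide_eq_false hy).symm
    have hh : h = (answers A qs).map some := by
      have h1 : g (pairBits z w') = bif decide (V (pairBits (pairBits z (unpair w').1)
          (unpair w').2) = [true]) && decide ((unpair w').2.length ≤
            p.eval (pairBits z (unpair w').1).length) then
          some ((unpair w').1.map some) else none := by
        rw [hg]
        simp only [unpair_pairBits]
      rw [h1] at hw'
      cases hb : (decide (V (pairBits (pairBits z (unpair w').1)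
          (unpair w').2) = [true]) && decide ((unpair w').2.length ≤
            p.eval (pairBits z (unpair w').1).length)) with
      | false => rw [hb, cond_false] at hw'; exact absurd hw' (by simp)
      | true =>
        rw [hb, cond_true] at hw'
        rw [Bool.and_eq_true, decide_eq_true_eq, decide_eq_true_eq] at hb
        have h2 : pairBits z (unpair w').1 ∈ GP.graph vec :=
          (hVL _).2 ⟨(unpair w').2, hb.2, hb.1⟩
        rw [GP.mem_graph, hvz] at h2
        rw [← h2]
        exact (Option.some.inj hw').symm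
    have hl : (answers A qs).length = qs.length := by simp [answers]
    have hm : 1 ≤ qs.length := length_pos hqs
    have hm1 : (1 : ℝ) ≤ qs.length := by exact_mod_cast hm
    rw [hh]
    refine ⟨⟨by rw [List.length_map, hl], by rw [made_eq_nans, nans_some, hl]; omega, ?_⟩,
      fun a ha => ?_⟩
    · rw [excess_self, made_eq_nans, nans_some, hl, Int.cast_natCast,
        abs_of_nonneg (by positivity)]
      calc (qs.length : ℝ) ^ δ * Real.sqrt qs.length
          ≤ (qs.length : ℝ) ^ ((1 : ℝ) / 2) * Real.sqrt qs.length :=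
            mul_le_mul_of_nonneg_right (Real.rpow_le_rpow_of_exponent_le hm1 hδ)
              (Real.sqrt_nonneg _)
        _ = Real.sqrt qs.length * Real.sqrt qs.length := by rw [← Real.sqrt_eq_rpow]
        _ = qs.length := Real.mul_self_sqrt (by positivity)
    · obtain ⟨i, _, rfl⟩ := List.mem_map.1 ha
      simp

theorem NFullyPredictable.npredictable {δ : ℝ} {A : Set (List Bool)} (h : NFullyPredictable δ A)
    (ε : ℝ) : NPredictable δ ε A := by
  obtain ⟨g, p, u, b, hg, hT, hu, hX⟩ := h
  exact ⟨g, p, u, b, hg, hT, hu, fun qs hqs _ h hh => (hX qs hqs h hh).1⟩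

/-- **The law of nondeterministic prediction.** -/
theorem nondet_law {δ ε : ℝ} (h1 : 0 < δ) (h2 : δ ≤ 1 / 2) (h3 : 0 < ε) : List.TFAE
    [∀ L : Set (List Bool), Pool.Agent.H623R2.PS.InPSPACE L → InNP L,
      ∃ A : Set (List Bool), PSPACEHard A ∧ NPredictable δ ε A,
      ∀ A : Set (List Bool), Pool.Agent.H623R2.PS.InPSPACE A → NFullyPredictable δ A] := by
  tfae_have 1 → 3 := fun h A hA => nfully_of_inNP h2 h hA
  tfae_have 3 → 2 := fun h => ⟨_, arcKayles_hard, (h _ arcKayles_mem).npredictable ε⟩
  tfae_have 2 → 1 := fun ⟨A, hA, h⟩ L hL => by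
    obtain ⟨D, c, cs, g, p, hE⟩ := nCor_of_npredictable h1 h3 h
    exact inNP_of_nCor (hard_of_ps hA) hE hL
  tfae_finish

end Pool.Agent.W920.LN
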