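import Pool.Agent.W920.LN.RunP
import Pool.Agent.W920.LS.Red

/-!
# From nondeterministic predictors to `NP = PSPACE`
-/

set_option autoImplicit false

namespace Pool.Agent.W920.LN

open Pool.Agent.NPC Pool.Agent.H656R2.AK Pool.Agent.H623R2.PS Pool.Agent.W920.LS
open Pool.Agent.H579R2.Spt (prm prm_spec prm_poly exists_pow_bound)
open Pool.Agent.W901.AT (gen gen_lt gen_cast dig dig_mod gen_upoly)

theorem inNP_of {β : Type} [TEnc β] [TDec β] {L : Set (List Bool)} {R : List Bool × β → Bool}
    (hR : NPC.Poly R) (p : Polynomial ℕ)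
    (h : ∀ x, x ∈ L ↔ ∃ w : β, sz w ≤ p.eval x.length ∧ R (x, w) = true) : InNP L := by
  have h1 : NPC.Poly (fun z : List Bool =>
      (unbits β (unpair z).2).elim false fun w => R ((unpair z).1, w)) := by
    refine (NPC.Poly.optCases (o := fun z : List Bool => unbits β (unpair z).2)
      (g := fun _ => false) (h := fun z w => R ((unpair z).1, w))
      (poly_unbits.comp (NPC.Poly.snd poly_unpair)) (NPC.Poly.const false) ?_).congr fun z => ?_
    · exact hR.comp (NPC.Poly.pair (NPC.Poly.fst (poly_unpair.comp (NPC.Poly.fst NPC.Poly.id)))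
        (NPC.Poly.snd NPC.Poly.id))
    · cases unbits β (unpair z).2 <;> rfl
  refine ⟨fun z => [(unbits β (unpair z).2).elim false fun w => R ((unpair z).1, w)], p,
    PIso.poly_iff.1 (NPC.Poly.cons h1 (NPC.Poly.const [])), fun x => ?_⟩
  rw [h x]
  constructor
  · rintro ⟨w, hw, hRw⟩
    refine ⟨bits w, by rw [bits_length]; exact hw, ?_⟩
    simp only [unpair_pairBits, unbits_bits, Option.elim_some, hRw]
  · rintro ⟨y, hy, hV⟩
    simp only [unpair_pairBits, List.cons.injEq, and_true] at hV
    cases hu : unbits β y with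
    | none => rw [hu] at hV; exact absurd hV (by simp)
    | some w =>
      rw [hu, Option.elim_some] at hV
      refine ⟨w, ?_, hV⟩
      have h2 := bits_of_unbits hu
      rw [← bits_length, h2]
      exact hy

theorem lk_map (ω : List Bool → List Bool) (l : List (List Bool)) {y : List Bool} (hy : y ∈ l) :
    lk (l.map fun z => (z, ω z)) y = ω y := by
  have h1 : (y, ω y) ∈ (l.map fun z => (z, ω z)).filter fun e => decide (e.1 = y) :=
    List.mem_filter.2 ⟨List.mem_map.2 ⟨y, hy, rfl⟩, by simp⟩
  unfold lk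
  cases h2 : (l.map fun z => (z, ω z)).filter fun e => decide (e.1 = y) with
  | nil => rw [h2] at h1; exact absurd h1 List.not_mem_nil
  | cons e t =>
    have h3 : e ∈ (l.map fun z => (z, ω z)).filter fun e => decide (e.1 = y) := by
      rw [h2]; exact List.mem_cons_self
    obtain ⟨h4, h5⟩ := List.mem_filter.1 h3
    obtain ⟨z, _, rfl⟩ := List.mem_map.1 h4
    have h6 : z = y := by simpa using h5
    rw [← h6]
    rfl

/-- The size of a table. -/
noncomputable def RT (pK p0 : Polynomial ℕ) : Polynomial ℕ :=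
  pK * (pK + Polynomial.C 4 * p0.comp pK + 3) + 1

theorem RT_eval (pK p0 : Polynomial ℕ) (Z : ℕ) : (RT pK p0).eval Z =
    pK.eval Z * (pK.eval Z + 4 * p0.eval (pK.eval Z) + 3) + 1 := by
  simp [RT]

theorem exists_table {g0 : List Bool → Option (List (Option Bool))} {p0 : Polynomial ℕ}
    (hT : ∀ z, ∃ h, Outputs g0 p0 z h) {Ks : Ln → List (List Bool)} {pK : Polynomial ℕ}
    (hpK : ∀ z, sz (Ks z) ≤ pK.eval (sz z)) (z : Ln) {Z : ℕ} (hz : sz z ≤ Z) :
    ∃ tb : Tb, sz tb ≤ (RT pK p0).eval Z ∧ ∀ y ∈ Ks z, valid g0 p0 tb y = true := by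
  choose h w hw1 hw2 using hT
  refine ⟨(Ks z).map fun y => (y, w y), ?_, fun y hy => ?_⟩
  · have e1 := (hpK z).trans (eval_mono pK hz)
    have e2 := length_lt_sz (Ks z)
    refine (sz_le_length_mul _ (pK.eval Z + 4 * p0.eval (pK.eval Z) + 2) ?_).trans ?_
    · intro e he
      obtain ⟨y, hy, rfl⟩ := List.mem_map.1 he
      have e3 := sz_le_of_mem hy
      have e4 := sz_listBool_ge y
      have e5 := sz_listBool_le (w y)
      have e6 := (hw1 y).trans (eval_mono p0 (show y.length ≤ pK.eval Z by omega))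
      rw [sz_pair]
      omega
    · rw [List.length_map, RT_eval]
      have e3 : (Ks z).length * (pK.eval Z + 4 * p0.eval (pK.eval Z) + 2 + 1) ≤
          pK.eval Z * (pK.eval Z + 4 * p0.eval (pK.eval Z) + 3) :=
        Nat.mul_le_mul (by omega) (by omega)
      omega
  · unfold valid go
    rw [lk_map w (Ks z) hy, decide_eq_true (hw1 y), cond_true, hw2 y]
    rfl

/-- **Nondeterministic predictors give `PSPACE ⊆ NP`.** -/
theorem inNP_of_nCor {A : Set (List Bool)} (hA : Hard A) {D c : ℕ}
    {cs : List (List Bool) → List (List Bool)} {g0 : List Bool → Option (List (Option Bool))}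
    {p0 : Polynomial ℕ} (hNC : NCor A D c cs g0 p0)
    {L : Set (List Bool)} (hL : Pool.Agent.H623R2.PS.InPSPACE L) : InNP L := by
  obtain ⟨G, Ks, r0, hG, hKs, hr0, hG2⟩ := n_cands hA hNC
    (((0, [], [], []), (0, [])) : Ln) (0 : ℕ) code_sp
  obtain ⟨hcs, hg0, hT, -⟩ := hNC
  obtain ⟨pK, hpK⟩ := hKs.sz_le
  obtain ⟨f, hf, -, hf'⟩ := qbf_hard hL
  have hw : NPC.Poly (fun x => wr (f x)) := wr_poly.comp hf
  obtain ⟨pw, hpw⟩ := hw.sz_le
  set r : Polynomial ℕ := pw.comp (Polynomial.C 4 * Polynomial.X + 1) with hr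
  have hrx : ∀ x : List Bool, sz (wr (f x)) ≤ r.eval x.length := by
    intro x
    refine (hpw x).trans ?_
    rw [hr, Polynomial.eval_comp]
    refine eval_mono pw ?_
    simpa using sz_listBool_le x
  set p3 : Polynomial ℕ := Polynomial.C 100 * Polynomial.X ^ 3 + 100 with hp3
  obtain ⟨e1, he1⟩ := exists_pow_bound ((r0.comp p3) ^ 2 * Polynomial.X)
  set g : ℕ := e1 + 1 with hg
  set b : List Bool → ℕ := fun x => r.eval x.length + (g + 3) with hb
  have hbU : UPoly b := ((UPoly.length NPC.Poly.id).eval r).add (UPoly.const (g + 3))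
  have hpowU : ∀ {u : List Bool → ℕ}, UPoly u → ∀ m : ℕ, UPoly (fun x => (u x) ^ m) := by
    intro u hu m
    induction m with
    | zero => simpa using UPoly.const 1
    | succ m ih => simpa only [pow_succ] using ih.mul hu
  have hpU : UPoly (fun x => prm ((b x) ^ g)) := prm_poly (hpowU hbU g)
  have hb0 : ∀ x, (b x) ^ g ≠ 0 := fun x => by
    have h2 : 0 < b x := by simp only [hb]; omega
    positivity
  have hpu : NPC.Poly (fun x => List.replicate (prm ((b x) ^ g) - 1) ()) :=
    UPoly.of_le (NPC.Poly.sub hpU.toPoly (NPC.Poly.const 1)) hpU fun x => Nat.sub_le _ _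
  have hvd : NPC.Poly (fun q : Tb × List Bool => valid g0 p0 q.1 q.2) :=
    isSome_poly (go_poly hg0 p0 (NPC.Poly.fst NPC.Poly.id) (NPC.Poly.snd NPC.Poly.id))
  have hin : NPC.Poly (fun q : List Bool × List Tb =>
      (((List.replicate (prm ((b q.1) ^ g) - 1) (), wr (f q.1)), q.2) : Wn)) := by
    have e1 : NPC.Poly (fun q : List Bool × List Tb => q.1) := NPC.Poly.fst NPC.Poly.id
    have h1 := hpu.comp e1
    have h2 := hw.comp e1
    exact NPC.Poly.pair (NPC.Poly.pair h1 h2) (NPC.Poly.snd NPC.Poly.id)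
  have hV : NPC.Poly (fun q : List Bool × List Tb => verif G Ks (valid g0 p0)
      ((List.replicate (prm ((b q.1) ^ g) - 1) (), wr (f q.1)), q.2)) := by
    have h := (verif_poly hG hKs hvd).comp hin
    exact h
  refine inNP_of hV ((r + Polynomial.C (g + 3)) *
    ((RT pK p0).comp (p3.comp (r + Polynomial.C (g + 3))) + 1) + 1) fun x => ?_
  obtain ⟨hp, hpb1, hpb2⟩ := prm_spec (hb0 x)
  set p : ℕ := prm ((b x) ^ g) with hpdef
  have hpl : (List.replicate (p - 1) ()).length + 1 = p := by
    rw [List.length_replicate]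
    have := hp.pos
    omega
  have hbx := hrx x
  set n : ℕ := (f x).1.length with hn
  set C := (f x).2 with hC
  set ks : List Unit := (C.flatMap fun c => c.map fun _ => ()) ++ List.replicate 3 () with hks
  set ops : List Op := opsQ n 0 (f x).1 with hops
  have hwr : wr (f x) = (C, ks, ops, List.replicate n 0) := rfl
  have hbe : b x = r.eval x.length + (g + 3) := rfl
  rw [hwr, sz_pair, sz_pair, sz_pair] at hbx
  have hgb : g + 1 ≤ b x := by omega
  have hb2 : 2 ≤ b x := by omega
  have hnb : n ≤ b x := by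
    have h1 := length_lt_sz (List.replicate n (0 : ℕ))
    rw [List.length_replicate] at h1
    omega
  have hpsz : p < 2 ^ (b x * b x) := by
    have h1 : b x < 2 ^ b x := Nat.lt_two_pow_self
    have h2 : (b x) ^ g < (2 ^ b x) ^ g := Nat.pow_lt_pow_left h1 (by omega)
    have h3 : 2 * (2 ^ b x) ^ g ≤ 2 ^ (b x * b x) := by
      calc 2 * (2 ^ b x) ^ g = 2 ^ (b x * g + 1) := by rw [← pow_mul, pow_succ]; ring
        _ ≤ 2 ^ (b x * b x) := Nat.pow_le_pow_right (by norm_num) (by
            have h4 : b x * (g + 1) ≤ b x * b x := Nat.mul_le_mul_left _ hgb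
            have h5 : b x * (g + 1) = b x * g + b x := by ring
            omega)
    omega
  have hsp : ∀ y ≤ p, sz y ≤ 4 * (b x * b x) + 1 := by
    intro y hy
    have h1 := sz_nat_le y
    have h2 : y.size ≤ b x * b x := Nat.size_le.2 (lt_of_le_of_lt hy hpsz)
    omega
  have hzb : ∀ (ops' : List Op) (a : List ℕ) (j : ℕ), ops' <:+ ops → a.length = n →
      (∀ y ∈ a, y < p) → j < n → sz (((p, C, ops', a), (j, ks)) : Ln) ≤ p3.eval (b x) := by
    intro ops' a j hs ha hap hj
    have s1 := hsp p le_rfl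
    have s2 := sz_suffix hs
    have s3 := sz_le_length_mul a (4 * (b x * b x) + 1) (fun y hy => hsp y (hap y hy).le)
    rw [ha] at s3
    have s4 : n * (4 * (b x * b x) + 1 + 1) ≤ b x * (4 * (b x * b x) + 2) :=
      Nat.mul_le_mul_right _ hnb
    have s5 : sz j ≤ 4 * b x + 1 := (sz_nat_le j).trans (by
      have := NPC.Poly.size_le_self j; omega)
    rw [sz_pair, sz_pair, sz_pair, sz_pair, sz_pair, hp3]
    simp only [Polynomial.eval_add, Polynomial.eval_mul, Polynomial.eval_C, Polynomial.eval_X,
      Polynomial.eval_pow, Polynomial.eval_ofNat]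
    have h1 : 2 * b x ≤ b x * b x := Nat.mul_le_mul_right _ hb2
    have h1' : 2 * (b x * b x) ≤ b x * b x * b x := by
      have := Nat.mul_le_mul_left (b x * b x) hb2
      omega
    have h2 : b x ^ 3 = b x * b x * b x := by ring
    have h3 : b x * (4 * (b x * b x) + 2) = 4 * (b x * b x * b x) + 2 * b x := by ring
    rw [h2]
    omega
  have hcard : ∀ (tb : Tb) (ops' : List Op) (a : List ℕ) (j : ℕ), ops' <:+ ops → a.length = n →
      (∀ y ∈ a, y < p) → j < n →
      (G (tb, ((p, C, ops', a), (j, ks)))).length ^ 2 * ks.length < p := by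
    intro tb ops' a j hs ha hap hj
    have hz := hzb ops' a j hs ha hap hj
    have h3 := length_lt_sz ks
    have h4 : (G (tb, ((p, C, ops', a), (j, ks)))).length ≤ r0.eval (p3.eval (b x)) :=
      (hr0 (tb, ((p, C, ops', a), (j, ks)))).trans (eval_mono r0 hz)
    have h5 := he1 (b x) hb2
    rw [Polynomial.eval_mul, Polynomial.eval_pow, Polynomial.eval_comp, Polynomial.eval_X] at h5
    calc (G (tb, ((p, C, ops', a), (j, ks)))).length ^ 2 * ks.length
        ≤ (r0.eval (p3.eval (b x))) ^ 2 * b x :=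
          Nat.mul_le_mul (Nat.pow_le_pow_left h4 2) (by omega)
      _ ≤ (b x) ^ e1 := h5
      _ ≤ (b x) ^ g := Nat.pow_le_pow_right (by omega) (by omega)
      _ < p := hpb1
  have hK : max 2 (nlit C) < ks.length := by rw [hks, ks_length]; omega
  have hsm : Sm (nlit C) n ops := sm_opsQ _ _ _ _ (by omega)
  have ha0 : ∀ y ∈ List.replicate n 0, y < p := fun y hy => by
    rw [List.eq_of_mem_replicate hy]; exact hp.pos
  have hval : ∀ tbs : List Tb, verif G Ks (valid g0 p0) ((List.replicate (p - 1) (), wr (f x)), tbs) =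
      (((gstep G Ks (valid g0 p0) p C ks)^[ops.length]
        (ops, (List.replicate n 0, ([], (tbs, true))))).2.2.2.2 &&
      decide ((((gstep G Ks (valid g0 p0) p C ks)^[ops.length]
        (ops, (List.replicate n 0, ([], (tbs, true))))).2.2.1).foldl (bstep p ks.length)
        (mvN p C ((gstep G Ks (valid g0 p0) p C ks)^[ops.length]
        (ops, (List.replicate n 0, ([], (tbs, true))))).2.1) = 1)) := by
    intro tbs
    have h1 : gstepW G Ks (valid g0 p0) ((List.replicate (p - 1) (), wr (f x)), tbs) =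
        gstep G Ks (valid g0 p0) p C ks := by
      funext s
      change gstep G Ks (valid g0 p0) ((List.replicate (p - 1) ()).length + 1) C ks s = _
      rw [hpl]
    unfold verif gfin
    rw [h1, hwr]
    simp only [ginit, hpl]
  have hsnd := fun tbs => run_sound (G := G) (Ks := Ks) (vd := valid g0 p0) hG2 hp C ks hK n ops
    hcard ops (List.replicate n 0) [] tbs true List.suffix_rfl hsm (List.length_replicate ..) ha0
  rw [hf' x, ← evN_iff hp, ← hC, ← hn, ← hops]
  constructor
  · intro hev
    obtain ⟨tbs, h1, h2, h3⟩ := run_complete (G := G) (Ks := Ks) (vd := valid g0 p0) hp C ks n ops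
      hcard ((RT pK p0).eval (p3.eval (b x)))
      (fun ops' a j hs ha hap hj => exists_table hT hpK _ (hzb ops' a j hs ha hap hj))
      ops (List.replicate n 0) [] true List.suffix_rfl hsm (List.length_replicate ..) ha0
    refine ⟨tbs, ?_, ?_⟩
    · refine (sz_le_length_mul tbs _ h2).trans ?_
      rw [h1]
      simp only [Polynomial.eval_add, Polynomial.eval_mul, Polynomial.eval_C,
        Polynomial.eval_one, Polynomial.eval_comp]
      have h4 := length_lt_sz ops
      have h5 : ops.length * ((RT pK p0).eval (p3.eval (b x)) + 1) ≤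
          b x * ((RT pK p0).eval (p3.eval (b x)) + 1) := Nat.mul_le_mul_right _ (by omega)
      exact Nat.add_le_add_right h5 1
    · have h4 := hval tbs
      simp only at h4 ⊢
      rw [h4, h3, Bool.true_and, decide_eq_true_eq]
      rw [(hsnd tbs h3).2]
      exact hev
  · rintro ⟨tbs, -, hv⟩
    have h4 := hval tbs
    simp only at h4 hv
    rw [h4, Bool.and_eq_true, decide_eq_true_eq] at hv
    obtain ⟨hv1, hv2⟩ := hv
    rw [(hsnd tbs hv1).2] at hv2
    exact hv2

end Pool.Agent.W920.LN
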