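import Pool.Agent.W920.LN.Approx
import Pool.Agent.W920.LS.SolveP

/-!
# Evaluating the arithmetization with guessed tables
-/

set_option autoImplicit false

namespace Pool.Agent.W920.LN

open Pool.Agent.NPC Pool.Agent.H656R2.AK Pool.Agent.H623R2.PS Pool.Agent.W920.LS
open Pool.Agent.W903.GP (Sp)
open Pool.Agent.W901.AT (gen gen_lt gen_cast dig dig_mod gen_upoly)

/-- **Candidate lists for functions on data, with tables.** -/
theorem n_cands {A : Set (List Bool)} (hA : Hard A) {D c : ℕ}
    {cs : List (List Bool) → List (List Bool)} {g0 : List Bool → Option (List (Option Bool))}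
    {p0 : Polynomial ℕ} (hNC : NCor A D c cs g0 p0)
    {α β : Type} [TEnc α] [TDec α] [TEnc β] [TDec β] (a0 : α) (b0 : β) {F : α → β} (hF : Sp F) :
    ∃ (G : Tb × α → List β) (Ks : α → List (List Bool)) (r : Polynomial ℕ), NPC.Poly G ∧
      NPC.Poly Ks ∧ (∀ q, (G q).length ≤ r.eval (sz q.2)) ∧
      ∀ tb a, (∀ z ∈ Ks a, valid g0 p0 tb z = true) → F a ∈ G (tb, a) := by
  have h1 : NPC.Poly (fun z : List Bool => (unbits α z).getD a0) :=
    NPC.Poly.optGetD poly_unbits (NPC.Poly.const a0)
  have h2 : Sp (fun z : List Bool => bits (F ((unbits α z).getD a0))) :=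
    (hF.comp (Sp.of_poly h1)).post Pool.Agent.H579R2.Spt.bits_poly
  obtain ⟨p, hp⟩ := h2.sz_le
  obtain ⟨G, Ks, r, hG, hKs, hr, hG2⟩ := n_approx A hA D c cs g0 p0 hNC h2
    (p.comp (Polynomial.C 4 * Polynomial.X + 1)) (fun x => by
      have e1 := hp x
      have e2 := sz_listBool_ge (bits (F ((unbits α x).getD a0)))
      have e3 := eval_mono p (sz_listBool_le x)
      rw [Polynomial.eval_comp]
      simp only [Polynomial.eval_add, Polynomial.eval_mul, Polynomial.eval_C, Polynomial.eval_X,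
        Polynomial.eval_one]
      omega)
  refine ⟨fun q => (G (q.1, bits q.2)).map fun y => (unbits β y).getD b0,
    fun a => Ks (bits a), r, ?_, hKs.comp Pool.Agent.H579R2.Spt.bits_poly, ?_, fun tb a h => ?_⟩
  · refine NPC.Poly.map (l := fun q : Tb × α => G (q.1, bits q.2))
      (F := fun _ y => (unbits β y).getD b0) ?_ ?_
    · have h3 : NPC.Poly (fun q : Tb × α => ((q.1, bits q.2) : Tb × List Bool)) :=
        NPC.Poly.pair (NPC.Poly.fst NPC.Poly.id)
          (Pool.Agent.H579R2.Spt.bits_poly.comp (NPC.Poly.snd NPC.Poly.id))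
      have h4 := hG.comp h3
      exact h4
    · exact NPC.Poly.optGetD (poly_unbits.comp (NPC.Poly.snd NPC.Poly.id)) (NPC.Poly.const b0)
  · intro q
    rw [List.length_map]
    exact hr (q.1, bits q.2)
  · refine List.mem_map.2 ⟨_, hG2 tb (bits a) h, ?_⟩
    simp only [unbits_bits, Option.getD_some]

/-- One step back gives the right value. -/
theorem bstep_correct {p : ℕ} (hp : p.Prime) (C : List (List (Bool × ℕ))) (ks : List Unit)
    (hK : max 2 (nlit C) < ks.length) (n : ℕ) {o : Op} {ops : List Op} {a : List ℕ}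
    (hsm : Sm (nlit C) n (o :: ops)) (han : a.length = n) {Λ : List ℕ}
    (hv : code ((p, C, ops, a), (o.2, ks)) ∈ Λ) (hcard : Λ.length ^ 2 * ks.length < p) :
    pick p ks.length Λ < p ∧
      bstep p ks.length (evN p C ops (stN a o.2 (pick p ks.length Λ)))
        ((o.1, a.getD o.2 0), (Λ, pick p ks.length Λ)) = evN p C (o :: ops) a := by
  obtain ⟨ho, _, hsm'⟩ := hsm
  obtain ⟨ht, hok⟩ := pick_spec hp ks.length Λ hcard
  refine ⟨ht, ?_⟩
  set t := pick p ks.length Λ with htd
  have hoa : o.2 < a.length := by rw [han]; exact ho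
  obtain ⟨_, hv2⟩ := code_spec hp C ops a hoa
    (fun o' ho' => by rw [han]; exact sm_coord hsm' o' ho') ks
    (lt_of_le_of_lt (hsm'.le ho) hK)
  set v := code ((p, C, ops, a), (o.2, ks)) with hvd
  have h1 : evN p C ops (stN a o.2 t) = gen p ks.length v t := (hv2 t ht).symm
  change _ = cbN p o.1 (a.getD o.2 0) (evN p C ops (stN a o.2 0)) (evN p C ops (stN a o.2 1))
  unfold bstep
  simp only
  obtain ⟨h2, h3⟩ := headD_filter (Λ := Λ)
    (P := fun w => decide (gen p ks.length w t = evN p C ops (stN a o.2 t))) hv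
    (decide_eq_true (by rw [h1]))
  obtain ⟨h4, h5⟩ := okt_iff.1 hok _ h2 _ hv ((of_decide_eq_true h3).trans h1)
  rw [h4, h5, hv2 0 hp.pos, hv2 1 hp.one_lt]

/-- the states: operators, point, stack, tables, flag -/
abbrev Sg := List Op × (List ℕ × (List Rec × (List Tb × Bool)))

/-- the first operator -/
def ghd (s : Sg) : Op := s.1.head?.getD (none, 0)

/-- the line of a state -/
def gz (p : ℕ) (C : List (List (Bool × ℕ))) (ks : List Unit) (s : Sg) : Ln :=
  ((p, C, s.1.tail, s.2.1), ((ghd s).2, ks))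

/-- the table of a state -/
def gtb (s : Sg) : Tb := s.2.2.2.1.head?.getD []

/-- one step -/
def gstep (G : Tb × Ln → List ℕ) (Ks : Ln → List (List Bool)) (vd : Tb → List Bool → Bool)
    (p : ℕ) (C : List (List (Bool × ℕ))) (ks : List Unit) (s : Sg) : Sg :=
  (s.1.tail, (stN s.2.1 (ghd s).2 (pick p ks.length (G (gtb s, gz p C ks s))),
    ((((ghd s).1, s.2.1.getD (ghd s).2 0), (G (gtb s, gz p C ks s),
        pick p ks.length (G (gtb s, gz p C ks s)))) :: s.2.2.1,
      (s.2.2.2.1.tail, s.2.2.2.2 && (Ks (gz p C ks s)).all (vd (gtb s))))))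

section

variable {G : Tb × Ln → List ℕ} {Ks : Ln → List (List Bool)} {vd : Tb → List Bool → Bool}

theorem gstep_cons (p : ℕ) (C : List (List (Bool × ℕ))) (ks : List Unit) (o : Op)
    (ops : List Op) (a : List ℕ) (stk : List Rec) (tb : Tb) (tbs : List Tb) (fl : Bool) :
    gstep G Ks vd p C ks (o :: ops, (a, (stk, (tb :: tbs, fl)))) =
      (ops, (stN a o.2 (pick p ks.length (G (tb, ((p, C, ops, a), (o.2, ks))))),
        (((o.1, a.getD o.2 0), (G (tb, ((p, C, ops, a), (o.2, ks))),
          pick p ks.length (G (tb, ((p, C, ops, a), (o.2, ks)))))) :: stk,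
          (tbs, fl && (Ks ((p, C, ops, a), (o.2, ks))).all (vd tb))))) := rfl

/-- **Soundness.** -/
theorem run_sound (hG : ∀ tb z, (∀ y ∈ Ks z, vd tb y = true) → code z ∈ G (tb, z)) {p : ℕ}
    (hp : p.Prime) (C : List (List (Bool × ℕ))) (ks : List Unit)
    (hK : max 2 (nlit C) < ks.length) (n : ℕ) (ops0 : List Op)
    (hcard : ∀ (tb : Tb) (ops : List Op) (a : List ℕ) (j : ℕ), ops <:+ ops0 → a.length = n →
      (∀ x ∈ a, x < p) → j < n → (G (tb, ((p, C, ops, a), (j, ks)))).length ^ 2 * ks.length < p) :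
    ∀ (ops : List Op) (a : List ℕ) (stk : List Rec) (tbs : List Tb) (fl : Bool),
      ops <:+ ops0 → Sm (nlit C) n ops → a.length = n → (∀ x ∈ a, x < p) →
      ((gstep G Ks vd p C ks)^[ops.length] (ops, (a, (stk, (tbs, fl))))).2.2.2.2 = true →
      fl = true ∧
      ((gstep G Ks vd p C ks)^[ops.length] (ops, (a, (stk, (tbs, fl))))).2.2.1.foldl
          (bstep p ks.length)
          (mvN p C ((gstep G Ks vd p C ks)^[ops.length] (ops, (a, (stk, (tbs, fl))))).2.1) =
        stk.foldl (bstep p ks.length) (evN p C ops a) := by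
  intro ops
  induction ops with
  | nil => intro a stk tbs fl _ _ _ _ h; exact ⟨h, rfl⟩
  | cons o ops ih =>
    intro a stk tbs fl hs hsm han ha h
    have hs' : ops <:+ ops0 := (List.suffix_cons o ops).trans hs
    set tb : Tb := tbs.head?.getD [] with htb
    set z : Ln := ((p, C, ops, a), (o.2, ks)) with hz
    have hc := hcard tb ops a o.2 hs' han ha hsm.1
    rw [← hz] at hc
    have ht := (pick_spec hp ks.length (G (tb, z)) hc).1
    have hstep : gstep G Ks vd p C ks (o :: ops, (a, (stk, (tbs, fl)))) =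
        (ops, (stN a o.2 (pick p ks.length (G (tb, z))),
          (((o.1, a.getD o.2 0), (G (tb, z), pick p ks.length (G (tb, z)))) :: stk,
          (tbs.tail, fl && (Ks z).all (vd tb))))) := rfl
    rw [List.length_cons, Function.iterate_succ_apply, hstep] at h ⊢
    obtain ⟨h1, h2⟩ := ih (stN a o.2 (pick p ks.length (G (tb, z))))
      (((o.1, a.getD o.2 0), (G (tb, z), pick p ks.length (G (tb, z)))) :: stk) tbs.tail
      (fl && (Ks z).all (vd tb)) hs' hsm.2.2 (by rw [stN_length, han]) (stN_mem_lt ha o.2 ht) h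
    rw [Bool.and_eq_true, List.all_eq_true] at h1
    refine ⟨h1.1, h2.trans ?_⟩
    rw [List.foldl_cons]
    congr 1
    exact (bstep_correct hp C ks hK n hsm han (hG tb z h1.2) hc).2

/-- **Completeness.** -/
theorem run_complete {p : ℕ} (hp : p.Prime) (C : List (List (Bool × ℕ))) (ks : List Unit)
    (n : ℕ) (ops0 : List Op)
    (hcard : ∀ (tb : Tb) (ops : List Op) (a : List ℕ) (j : ℕ), ops <:+ ops0 → a.length = n →
      (∀ x ∈ a, x < p) → j < n → (G (tb, ((p, C, ops, a), (j, ks)))).length ^ 2 * ks.length < p)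
    (R : ℕ) (hR : ∀ (ops : List Op) (a : List ℕ) (j : ℕ), ops <:+ ops0 → a.length = n →
      (∀ x ∈ a, x < p) → j < n → ∃ tb : Tb, sz tb ≤ R ∧
        ∀ y ∈ Ks ((p, C, ops, a), (j, ks)), vd tb y = true) :
    ∀ (ops : List Op) (a : List ℕ) (stk : List Rec) (fl : Bool),
      ops <:+ ops0 → Sm (nlit C) n ops → a.length = n → (∀ x ∈ a, x < p) →
      ∃ tbs : List Tb, tbs.length = ops.length ∧ (∀ tb ∈ tbs, sz tb ≤ R) ∧
        ((gstep G Ks vd p C ks)^[ops.length] (ops, (a, (stk, (tbs, fl))))).2.2.2.2 = fl := by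
  intro ops
  induction ops with
  | nil => intro a stk fl _ _ _ _; exact ⟨[], rfl, fun tb h => absurd h List.not_mem_nil, rfl⟩
  | cons o ops ih =>
    intro a stk fl hs hsm han ha
    have hs' : ops <:+ ops0 := (List.suffix_cons o ops).trans hs
    obtain ⟨tb, htb1, htb2⟩ := hR ops a o.2 hs' han ha hsm.1
    set z : Ln := ((p, C, ops, a), (o.2, ks)) with hz
    have hc := hcard tb ops a o.2 hs' han ha hsm.1
    rw [← hz] at hc
    have ht := (pick_spec hp ks.length (G (tb, z)) hc).1
    obtain ⟨tbs, h1, h2, h3⟩ := ih (stN a o.2 (pick p ks.length (G (tb, z))))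
      (((o.1, a.getD o.2 0), (G (tb, z), pick p ks.length (G (tb, z)))) :: stk) fl
      hs' hsm.2.2 (by rw [stN_length, han]) (stN_mem_lt ha o.2 ht)
    refine ⟨tb :: tbs, by rw [List.length_cons, h1, List.length_cons], ?_, ?_⟩
    · intro tb' h
      rcases List.mem_cons.1 h with rfl | h
      · exact htb1
      · exact h2 tb' h
    · rw [List.length_cons, Function.iterate_succ_apply, gstep_cons]
      rw [← hz, List.all_eq_true.2 htb2, Bool.and_true]
      exact h3

end

end Pool.Agent.W920.LN
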