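import Pool.Agent.W920.LN.Run

/-!
# The verification runs in polynomial time
-/

set_option autoImplicit false

namespace Pool.Agent.W920.LN

open Pool.Agent.NPC Pool.Agent.H656R2.AK Pool.Agent.H623R2.PS Pool.Agent.W920.LS
open Pool.Agent.W901.AT (gen gen_lt gen_cast dig dig_mod gen_upoly)

/-- the input with the tables -/
abbrev Wn := Wk × List Tb

/-- one step -/
def gstepW (G : Tb × Ln → List ℕ) (Ks : Ln → List (List Bool)) (vd : Tb → List Bool → Bool)
    (v : Wn) (s : Sg) : Sg := gstep G Ks vd (v.1.1.length + 1) v.1.2.1 v.1.2.2.1 s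

/-- the first state -/
def ginit (v : Wn) : Sg := (v.1.2.2.2.1, (v.1.2.2.2.2, ([], (v.2, true))))

/-- the last state -/
def gfin (G : Tb × Ln → List ℕ) (Ks : Ln → List (List Bool)) (vd : Tb → List Bool → Bool)
    (v : Wn) : Sg := (gstepW G Ks vd v)^[v.1.2.2.2.1.length] (ginit v)

/-- the verification -/
def verif (G : Tb × Ln → List ℕ) (Ks : Ln → List (List Bool)) (vd : Tb → List Bool → Bool)
    (v : Wn) : Bool :=
  (gfin G Ks vd v).2.2.2.2 && decide ((gfin G Ks vd v).2.2.1.foldl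
    (bstep (v.1.1.length + 1) v.1.2.2.1.length)
    (mvN (v.1.1.length + 1) v.1.2.1 (gfin G Ks vd v).2.1) = 1)

variable {G : Tb × Ln → List ℕ} {Ks : Ln → List (List Bool)} {vd : Tb → List Bool → Bool}

theorem gstepW_poly (hG : NPC.Poly G) (hKs : NPC.Poly Ks)
    (hvd : NPC.Poly (fun q : Tb × List Bool => vd q.1 q.2)) :
    NPC.Poly (fun q : Wn × Sg => gstepW G Ks vd q.1 q.2) := by
  have v : NPC.Poly (fun q : Wn × Sg => q.1) := NPC.Poly.fst NPC.Poly.id
  have s : NPC.Poly (fun q : Wn × Sg => q.2) := NPC.Poly.snd NPC.Poly.id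
  have w := NPC.Poly.fst v
  have w1 := NPC.Poly.fst w
  have w2 := NPC.Poly.fst (NPC.Poly.snd w)
  have w3 := NPC.Poly.fst (NPC.Poly.snd (NPC.Poly.snd w))
  have s1 := NPC.Poly.fst s
  have s2 := NPC.Poly.fst (NPC.Poly.snd s)
  have s3 := NPC.Poly.fst (NPC.Poly.snd (NPC.Poly.snd s))
  have s4 := NPC.Poly.fst (NPC.Poly.snd (NPC.Poly.snd (NPC.Poly.snd s)))
  have s5 := NPC.Poly.snd (NPC.Poly.snd (NPC.Poly.snd (NPC.Poly.snd s)))
  have hd : NPC.Poly (fun q : Wn × Sg => ghd q.2) := NPC.Poly.head?_getD s1 _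
  have htb : NPC.Poly (fun q : Wn × Sg => gtb q.2) := NPC.Poly.head?_getD s4 _
  have hp : UPoly (fun q : Wn × Sg => q.1.1.1.length + 1) :=
    (UPoly.length w1).add (UPoly.const 1)
  have hK : UPoly (fun q : Wn × Sg => q.1.1.2.2.1.length) := UPoly.length w3
  have hz : NPC.Poly (fun q : Wn × Sg => gz (q.1.1.1.length + 1) q.1.1.2.1 q.1.1.2.2.1 q.2) :=
    NPC.Poly.pair (NPC.Poly.pair hp.toPoly (NPC.Poly.pair w2 (NPC.Poly.pair (NPC.Poly.tail s1) s2)))
      (NPC.Poly.pair (NPC.Poly.snd hd) w3)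
  have hL : NPC.Poly (fun q : Wn × Sg => G (gtb q.2,
      gz (q.1.1.1.length + 1) q.1.1.2.1 q.1.1.2.2.1 q.2)) := hG.comp (NPC.Poly.pair htb hz)
  have ht : NPC.Poly (fun q : Wn × Sg => pick (q.1.1.1.length + 1) q.1.1.2.2.1.length
      (G (gtb q.2, gz (q.1.1.1.length + 1) q.1.1.2.1 q.1.1.2.2.1 q.2))) :=
    pick_poly hp (fun _ => Nat.le_add_left _ _) hK hL
  have hall : NPC.Poly (fun q : Wn × Sg =>
      (Ks (gz (q.1.1.1.length + 1) q.1.1.2.1 q.1.1.2.2.1 q.2)).all (vd (gtb q.2))) := by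
    refine NPC.Poly.all (l := fun q : Wn × Sg =>
        Ks (gz (q.1.1.1.length + 1) q.1.1.2.1 q.1.1.2.2.1 q.2))
      (p := fun q y => vd (gtb q.2) y) (hKs.comp hz) ?_
    have h := hvd.comp (NPC.Poly.pair (htb.comp (NPC.Poly.fst (NPC.Poly.id (α := (Wn × Sg) × List Bool))))
      (NPC.Poly.snd (NPC.Poly.id (α := (Wn × Sg) × List Bool))))
    exact h
  exact NPC.Poly.pair (NPC.Poly.tail s1) (NPC.Poly.pair (stN_poly s2 (NPC.Poly.snd hd) ht)
    (NPC.Poly.pair (NPC.Poly.cons (NPC.Poly.pair (NPC.Poly.pair (NPC.Poly.fst hd)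
      (NPC.Poly.getD s2 (NPC.Poly.snd hd) (NPC.Poly.const 0))) (NPC.Poly.pair hL ht)) s3)
      (NPC.Poly.pair (NPC.Poly.tail s4) (NPC.Poly.and s5 hall))))

/-- the size of a record -/
noncomputable def Rn (pG : Polynomial ℕ) : Polynomial ℕ :=
  pG.comp (Zb + Polynomial.X + 3) + Polynomial.C 17 * Polynomial.X + 40

theorem Rn_eval (pG : Polynomial ℕ) (S : ℕ) :
    (Rn pG).eval S = pG.eval (Zb.eval S + S + 3) + 17 * S + 40 := by
  simp [Rn]

/-- the invariant -/
def GInv (pG : Polynomial ℕ) (v : Wn) (i : ℕ) (s : Sg) : Prop :=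
  sz s.1 ≤ sz v ∧ s.2.1.length = v.1.2.2.2.2.length ∧ (∀ x ∈ s.2.1, sz x ≤ 8 * sz v + 5) ∧
    s.2.2.1.length = i ∧ (∀ r ∈ s.2.2.1, sz r ≤ (Rn pG).eval (sz v)) ∧ sz s.2.2.2.1 ≤ sz v

theorem gInv_step {pG : Polynomial ℕ} (hpG : ∀ z, sz (G z) ≤ pG.eval (sz z))
    {v : Wn} {i : ℕ} {s : Sg} (h : GInv pG v i s) :
    GInv pG v (i + 1) (gstepW G Ks vd v s) := by
  obtain ⟨h1, h2, h3, h4, h5, h6⟩ := h
  obtain ⟨⟨pu, C, ks, ops, a⟩, tbs0⟩ := v
  obtain ⟨o, b, stk, tbs, fl⟩ := s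
  simp only at h1 h2 h3 h4 h5 h6
  set S := sz (((pu, C, ks, ops, a), tbs0) : Wn) with hS
  have hSe : S = sz pu + (sz C + (sz ks + (sz ops + sz a + 1) + 1) + 1) + 1 + sz tbs0 + 1 := by
    rw [hS]; simp only [sz_pair]
  set s : Sg := (o, b, stk, tbs, fl) with hs
  set z : Ln := gz (pu.length + 1) C ks s with hz0
  set hd : Op := ghd s with hhd
  set tb : Tb := gtb s with htb
  set t := pick (pu.length + 1) ks.length (G (tb, z)) with ht
  have hP : sz (pu.length + 1) ≤ 4 * S + 1 := by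
    have e1 := sz_nat_le (pu.length + 1)
    have e2 := NPC.Poly.size_le_self (pu.length + 1)
    have e3 := length_lt_sz pu
    omega
  have htz : sz t ≤ 8 * S + 5 := by
    have := sz_nat_mono_le (pick_le (pu.length + 1) ks.length (G (tb, z)))
    rw [← ht] at this
    omega
  have h0 : sz (0 : ℕ) ≤ 5 := by decide
  have htail : sz o.tail ≤ S := by
    refine le_trans ?_ h1
    rw [← List.drop_one]
    exact NPC.Poly.sz_drop_le _ _
  have httail : sz tbs.tail ≤ S := by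
    refine le_trans ?_ h6
    rw [← List.drop_one]
    exact NPC.Poly.sz_drop_le _ _
  have hhdz : sz hd ≤ S + 10 := by
    rw [hhd]
    change sz (o.head?.getD (none, 0) : Op) ≤ _
    cases o with
    | nil =>
      have : sz ((none, 0) : Op) ≤ 10 := by decide
      exact this.trans (by omega)
    | cons o' o =>
      have : sz o' < sz (o' :: o) := sz_le_of_mem List.mem_cons_self
      exact this.le.trans (by omega)
  have htbz : sz tb ≤ S + 1 := by
    rw [htb]
    change sz (tbs.head?.getD [] : Tb) ≤ _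
    cases tbs with
    | nil =>
      have : sz ([] : Tb) = 1 := rfl
      exact this.le.trans (by omega)
    | cons t' tbs =>
      have : sz t' < sz (t' :: tbs) := sz_le_of_mem List.mem_cons_self
      exact this.le.trans (by omega)
  have hhd12 : sz hd = sz hd.1 + sz hd.2 + 1 := sz_pair hd.1 hd.2
  have hbj : ∀ j, sz (b.getD j 0) ≤ 8 * S + 5 := by
    intro j
    by_cases hj : j < b.length
    · rw [List.getD_eq_getElem _ _ hj]
      exact h3 _ (List.getElem_mem _)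
    · rw [List.getD_eq_default _ _ (by omega)]
      omega
  have hbz : sz b ≤ S * (8 * S + 6) + 1 := by
    refine (sz_le_length_mul b _ h3).trans ?_
    rw [h2]
    have e1 := length_lt_sz a
    have e2 : a.length * (8 * S + 5 + 1) ≤ S * (8 * S + 6) := Nat.mul_le_mul (by omega) (by omega)
    omega
  have hz : sz z ≤ Zb.eval S := by
    rw [Zb_eval, hz0]
    change sz (((pu.length + 1, C, o.tail, b), (hd.2, ks)) : Ln) ≤ _
    simp only [sz_pair]
    omega
  have hL : sz (G (tb, z)) ≤ pG.eval (Zb.eval S + S + 3) := by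
    refine (hpG (tb, z)).trans (eval_mono pG ?_)
    rw [sz_pair]
    omega
  refine ⟨htail, ?_, ?_, ?_, ?_, httail⟩
  · change (stN b hd.2 t).length = _
    rw [stN_length, h2]
  · intro x hx
    obtain ⟨j, hj, rfl⟩ := List.mem_map.1 (show x ∈ stN b hd.2 t from hx)
    split_ifs
    · exact htz
    · exact hbj j
  · change (_ :: stk).length = _
    rw [List.length_cons, h4]
  · intro r hr
    rcases List.mem_cons.1 (show r ∈ ((hd.1, b.getD hd.2 0), (G (tb, z), t)) :: stk from hr)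
      with rfl | hr
    · have e1 := hbj hd.2
      change sz (((hd.1, b.getD hd.2 0), (G (tb, z), t)) : Rec) ≤ (Rn pG).eval S
      rw [Rn_eval, sz_pair, sz_pair, sz_pair]
      omega
    · exact h5 r hr

theorem gInv_iter {pG : Polynomial ℕ} (hpG : ∀ z, sz (G z) ≤ pG.eval (sz z))
    (v : Wn) (i : ℕ) : GInv pG v i ((gstepW G Ks vd v)^[i] (ginit v)) := by
  induction i with
  | zero =>
    obtain ⟨⟨pu, C, ks, ops, a⟩, tbs0⟩ := v
    refine ⟨?_, rfl, ?_, rfl, fun r hr => absurd hr List.not_mem_nil, ?_⟩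
    · simp only [Function.iterate_zero, id_eq, sz_pair, ginit]
      omega
    · intro x hx
      have h1 := sz_le_of_mem (show x ∈ a from hx)
      simp only [sz_pair]
      omega
    · simp only [Function.iterate_zero, id_eq, sz_pair, ginit]
      omega
  | succ i ih =>
    rw [Function.iterate_succ_apply']
    exact gInv_step hpG ih

theorem gfin_poly (hG : NPC.Poly G) (hKs : NPC.Poly Ks)
    (hvd : NPC.Poly (fun q : Tb × List Bool => vd q.1 q.2)) : NPC.Poly (gfin G Ks vd) := by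
  obtain ⟨pG, hpG⟩ := hG.sz_le
  have v1 : NPC.Poly (fun v : Wn => v.1) := NPC.Poly.fst NPC.Poly.id
  have v2 : NPC.Poly (fun v : Wn => v.2) := NPC.Poly.snd NPC.Poly.id
  have w4 := NPC.Poly.fst (NPC.Poly.snd (NPC.Poly.snd (NPC.Poly.snd v1)))
  have w5 := NPC.Poly.snd (NPC.Poly.snd (NPC.Poly.snd (NPC.Poly.snd v1)))
  refine NPC.Poly.iterLen (l := fun v : Wn => v.1.2.2.2.1) (s := ginit)
    (F := gstepW G Ks vd) w4 (NPC.Poly.pair w4 (NPC.Poly.pair w5
      (NPC.Poly.pair (NPC.Poly.const []) (NPC.Poly.pair v2 (NPC.Poly.const true)))))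
    (gstepW_poly hG hKs hvd) (Polynomial.C 2 * Polynomial.X +
      (Polynomial.X * (Polynomial.C 8 * Polynomial.X + 6) + 1) +
      (Polynomial.X * (Rn pG + 1) + 1) + 10) ?_
  intro v i hi
  obtain ⟨h1, h2, h3, h4, h5, h6⟩ := gInv_iter (Ks := Ks) (vd := vd) hpG v i
  set s := (gstepW G Ks vd v)^[i] (ginit v) with hs
  have e0 : sz s = sz s.1 + (sz s.2.1 + (sz s.2.2.1 + (sz s.2.2.2.1 + sz s.2.2.2.2 + 1) + 1) + 1)
      + 1 := by
    rw [← sz_pair, ← sz_pair, ← sz_pair, ← sz_pair]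
  have e00 := sz_bool_le s.2.2.2.2
  have e1 := sz_le_length_mul s.2.1 _ h3
  have e2 := sz_le_length_mul s.2.2.1 _ h5
  have hw : sz v = sz v.1.1 + (sz v.1.2.1 + (sz v.1.2.2.1 + (sz v.1.2.2.2.1 + sz v.1.2.2.2.2 + 1) +
      1) + 1) + 1 + sz v.2 + 1 := by
    rw [← sz_pair, ← sz_pair, ← sz_pair, ← sz_pair, ← sz_pair]
  have e3 := length_lt_sz v.1.2.2.2.1
  have e4 := length_lt_sz v.1.2.2.2.2
  have e5 : s.2.1.length * (8 * sz v + 5 + 1) ≤ sz v * (8 * sz v + 6) :=
    Nat.mul_le_mul (by rw [h2]; omega) (by omega)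
  have e6 : s.2.2.1.length * ((Rn pG).eval (sz v) + 1) ≤ sz v * ((Rn pG).eval (sz v) + 1) :=
    Nat.mul_le_mul_right _ (by rw [h4]; omega)
  simp only [Polynomial.eval_add, Polynomial.eval_mul, Polynomial.eval_C, Polynomial.eval_X,
    Polynomial.eval_one, Polynomial.eval_ofNat]
  omega

theorem verif_poly (hG : NPC.Poly G) (hKs : NPC.Poly Ks)
    (hvd : NPC.Poly (fun q : Tb × List Bool => vd q.1 q.2)) : NPC.Poly (verif G Ks vd) := by
  have v1 : NPC.Poly (fun v : Wn => v.1) := NPC.Poly.fst NPC.Poly.id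
  have w1 := NPC.Poly.fst v1
  have w2 := NPC.Poly.fst (NPC.Poly.snd v1)
  have w3 := NPC.Poly.fst (NPC.Poly.snd (NPC.Poly.snd v1))
  have hp : UPoly (fun v : Wn => v.1.1.length + 1) := (UPoly.length w1).add (UPoly.const 1)
  have hK : UPoly (fun v : Wn => v.1.2.2.1.length) := UPoly.length w3
  have h1 := gfin_poly hG hKs hvd
  refine NPC.Poly.and (NPC.Poly.snd (NPC.Poly.snd (NPC.Poly.snd (NPC.Poly.snd h1))))
    (NPC.Poly.decide_eq ?_ (NPC.Poly.const 1))
  refine NPC.Poly.foldl (l := fun v : Wn => (gfin G Ks vd v).2.2.1)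
    (s := fun v : Wn => mvN (v.1.1.length + 1) v.1.2.1 (gfin G Ks vd v).2.1)
    (F := fun v c r => bstep (v.1.1.length + 1) v.1.2.2.1.length c r)
    (NPC.Poly.fst (NPC.Poly.snd (NPC.Poly.snd h1)))
    (mvN_poly hp.toPoly (fun _ => Nat.le_add_left _ _) w2 (NPC.Poly.fst (NPC.Poly.snd h1))) ?_
    (Polynomial.C 8 * Polynomial.X + 2) ?_
  · have e1 : NPC.Poly (fun q : Wn × ℕ × Rec => q.1) := NPC.Poly.fst NPC.Poly.id
    have e2 : NPC.Poly (fun q : Wn × ℕ × Rec => q.2.1) :=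
      NPC.Poly.fst (NPC.Poly.snd NPC.Poly.id)
    have e3 : NPC.Poly (fun q : Wn × ℕ × Rec => q.2.2) :=
      NPC.Poly.snd (NPC.Poly.snd NPC.Poly.id)
    exact bstep_poly (hp.toPoly.comp e1) (fun _ => Nat.le_add_left _ _) (hK.comp e1) e2 e3
  · intro v k _
    have h3 : ∀ (l : List Rec) (c : ℕ), c ≤ v.1.1.length + 1 →
        l.foldl (fun c r => bstep (v.1.1.length + 1) v.1.2.2.1.length c r) c ≤
          v.1.1.length + 1 := by
      intro l
      induction l with
      | nil => intro c hc; exact hc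
      | cons r l ih =>
        intro c _
        rw [List.foldl_cons]
        exact ih _ (cbN_lt (Nat.succ_pos _) _ _ _ _).le
    have h4 := sz_nat_mono_le (h3 (((gfin G Ks vd v).2.2.1).take k)
      (mvN (v.1.1.length + 1) v.1.2.1 (gfin G Ks vd v).2.1) (mvN_lt (Nat.succ_pos _) _ _).le)
    have e1 := sz_nat_le (v.1.1.length + 1)
    have e2 := NPC.Poly.size_le_self (v.1.1.length + 1)
    have e3 := length_lt_sz v.1.1
    have hw : sz v = sz v.1.1 + sz v.1.2 + 1 + sz v.2 + 1 := by rw [← sz_pair, ← sz_pair]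
    simp only [Polynomial.eval_add, Polynomial.eval_mul, Polynomial.eval_C, Polynomial.eval_X,
      Polynomial.eval_ofNat]
    omega

end Pool.Agent.W920.LN
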